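import Mathlib
import Pool.Agent.Q114.ThetaSat
import Pool.Agent.Q114.CycleSatLower

/-!
# MP_0fee77_co: saturation numbers of cycle families with bounded lengths

It is not true that, for `s ≥ 4`, `r` large in terms of `s` and `n` large in terms of `s` and `r`,
the families `C_[s,r]` and `C_[s,∞)` have the same saturation number.  The equality fails for
every `s ≥ 4`: for all `b ≥ 2 (s - 2)` and `m ≥ 2`, with `r = 2 b + 1` and `n = 2 + m b`, one has
`sat(n, C_[s,r]) ≤ m (b + 1) < sat(n, C_[s,∞))`.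

* Upper bound: two vertices joined by `m` internally disjoint paths with `b + 1` edges.
* Lower bound: in a graph saturated for all cycles of length at least `s` the bridges form a
  matching, and every other edge lies on one of the `e - n + 1` fundamental cycles, which have
  length at most `s - 1`; so `e ≥ n - 1 + (n - 2) / (2 (s - 2))`.
-/

namespace Pool.Agent.Results.MP_0fee77_co.FailsForAllStarts

open Q114

/-- The statement in question is false, and the equality fails for every `s ≥ 4`. -/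
theorem result :
    (¬ ∃ (R : ℕ → ℕ) (N : ℕ → ℕ → ℕ), ∀ s r n : ℕ, 4 ≤ s → R s ≤ r → N s r ≤ n →
      sat n (Set.Icc s r) = sat n (Set.Ici s)) ∧
    (∀ s b m : ℕ, 4 ≤ s → 2 * (s - 2) ≤ b → 2 ≤ m →
      sat (2 + m * b) (Set.Icc s (2 * b + 1)) ≤ m * (b + 1) ∧
      m * (b + 1) < sat (2 + m * b) (Set.Ici s)) := by
  have key : ∀ s b m : ℕ, 4 ≤ s → 2 * (s - 2) ≤ b → 2 ≤ m →
      sat (2 + m * b) (Set.Icc s (2 * b + 1)) ≤ m * (b + 1) ∧
      m * (b + 1) < sat (2 + m * b) (Set.Ici s) := by
    intro s b m hs hb hm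
    refine ⟨sat_theta hm (by omega) hs (by omega), ?_⟩
    have h := sat_lower (n := 2 + m * b) (s := s) (by omega) hs
    obtain ⟨q, rfl⟩ : ∃ q, s = q + 2 := ⟨s - 2, by omega⟩
    rw [show q + 2 - 2 = q by omega] at h hb
    rw [show 2 + m * b - 1 = m * b + 1 by omega] at h
    by_contra hcon
    push Not at hcon
    have h1 : 2 * q * sat (2 + m * b) (Set.Ici (q + 2)) ≤ 2 * q * (m * (b + 1)) :=
      Nat.mul_le_mul_left _ hcon
    have h2 : m * b ≥ m * (2 * q) := Nat.mul_le_mul_left _ hb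
    have hq : 2 ≤ q := by omega
    nlinarith [h, h1, h2, hq]
  refine ⟨?_, key⟩
  rintro ⟨R, N, h⟩
  have h1 := h 4 (2 * (R 4 + 4) + 1) (2 + (N 4 (2 * (R 4 + 4) + 1) + 2) * (R 4 + 4)) le_rfl
    (by omega) (by nlinarith)
  obtain ⟨h2, h3⟩ := key 4 (R 4 + 4) (N 4 (2 * (R 4 + 4) + 1) + 2) le_rfl (by omega) (by omega)
  rw [h1] at h2
  exact absurd h2 (not_le.2 h3)

end Pool.Agent.Results.MP_0fee77_co.FailsForAllStarts
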